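import Pool.Agent.Helper50.GP.St

set_option autoImplicit false

namespace Pool.Agent.Helper2.GP

open Pool.Agent.Helper50.GP

theorem hABW : StABW := by
  intro p a M N ω G _ w c ha hM hes hc hr
  have key : ∀ j : ℤ, (Abelianization.of : G →* Abelianization G) (xl (w ^ a) c j) =
      (Abelianization.of : G →* Abelianization G) (w ^ a) := by
    intro j
    unfold xl
    rw [map_mul, map_mul, map_zpow, map_zpow, mul_comm, ← mul_assoc, ← zpow_add]
    simp
  have hlift : ∀ (f : ZMod p → ℕ) (u : FreeGroup (ZMod p)),
      (Abelianization.of : G →* Abelianization G)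
        (FreeGroup.lift (fun k => xl (w ^ a) c (f k : ℤ)) u) =
      (Abelianization.of : G →* Abelianization G) (w ^ a) ^ (Multiplicative.toAdd (es u)) := by
    intro f u
    have h : (Abelianization.of : G →* Abelianization G).comp
        (FreeGroup.lift (fun k => xl (w ^ a) c (f k : ℤ))) =
        (zpowersHom (Abelianization G)
          ((Abelianization.of : G →* Abelianization G) (w ^ a))).comp es := by
      apply FreeGroup.ext_hom
      intro i
      simp only [MonoidHom.comp_apply, FreeGroup.lift_apply_of, es, zpowersHom_apply, key]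
      simp
    have h2 := DFunLike.congr_fun h u
    simpa [zpowersHom_apply] using h2
  have hW : ∀ n : ℕ, (Abelianization.of : G →* Abelianization G)
      (((List.range n).map (fun r => FreeGroup.lift (fun k => xl (w ^ a) c (N r k : ℤ)) (ω r))).prod) =
      (Abelianization.of : G →* Abelianization G) (w ^ a) ^
        (∑ r ∈ Finset.range n, Multiplicative.toAdd (es (ω r))) := by
    intro n
    induction n with
    | zero => simp
    | succ n ih =>
      rw [List.range_succ, List.map_append, List.prod_append, map_mul, ih, Finset.sum_range_succ,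
        zpow_add]
      congr 1
      simp only [List.map_cons, List.map_nil, List.prod_cons, List.prod_nil, mul_one]
      exact hlift _ _
  have h1 : (Abelianization.of : G →* Abelianization G) (Wd (w ^ a) c p N ω) =
      (Abelianization.of : G →* Abelianization G) (w ^ a) ^ (esum p ω) := hW (p - 1)
  have h2 : ((Abelianization.of : G →* Abelianization G) w) ^ ((a : ℤ) * (esum p ω) * (M : ℤ)) = 1 := by
    have h3 : (c ^ (p ^ 2)) ^ M = 1 := by
      rw [← pow_mul, mul_comm, pow_mul, hc, one_pow]
    rw [hr] at h3
    have h4 := congrArg (Abelianization.of : G →* Abelianization G) h3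
    rw [map_pow, h1, map_one, map_pow] at h4
    rw [zpow_mul, zpow_mul, zpow_natCast, zpow_natCast]
    exact h4
  refine ⟨((a : ℤ) * (esum p ω) * (M : ℤ)).natAbs, ?_, ?_⟩
  · apply Nat.one_le_iff_ne_zero.mpr
    apply Int.natAbs_ne_zero.mpr
    apply mul_ne_zero
    · apply mul_ne_zero
      · exact_mod_cast Nat.one_le_iff_ne_zero.mp ha
      · exact hes
    · exact_mod_cast Nat.one_le_iff_ne_zero.mp hM
  · rw [← Abelianization.ker_of, MonoidHom.mem_ker, map_pow]
    exact (pow_natAbs_eq_one).mpr h2

end Pool.Agent.Helper2.GP
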