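import Pool.Agent.Helper50.GP.St

set_option autoImplicit false

namespace Pool.Agent.Helper2.GP

open Pool.Agent.Helper50.GP

theorem conj_closure {G : Type} [Group G] (R : Set G) (u : G)
    (h : ∀ y ∈ R, u⁻¹ * y * u ∈ Subgroup.closure R) :
    ∀ y ∈ Subgroup.closure R, u⁻¹ * y * u ∈ Subgroup.closure R := by
  intro y hy
  induction hy using Subgroup.closure_induction with
  | mem y hy => exact h y hy
  | one => simp
  | mul y z _ _ hy hz =>
    have e : u⁻¹ * (y * z) * u = (u⁻¹ * y * u) * (u⁻¹ * z * u) := by group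
    rw [e]
    exact Subgroup.mul_mem _ hy hz
  | inv y _ hy =>
    have e : u⁻¹ * y⁻¹ * u = (u⁻¹ * y * u)⁻¹ := by group
    rw [e]
    exact Subgroup.inv_mem _ hy

theorem hNRM : StNRM := by
  intro G _ w c a b g M hab hM hcl hs hc
  have hx : w ^ b * w ^ a = w ^ a * w ^ b := by rw [← pow_add, ← pow_add, add_comm]
  -- the letters
  have hmem : ∀ j : ℤ, xl (w ^ a) c j ∈ Bs (w ^ a) c := fun j =>
    Subgroup.subset_closure ⟨j, rfl⟩
  have hcz : ∀ j : ℤ, c ^ j = c ^ (j % (M : ℤ)) := by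
    intro j
    conv_lhs => rw [← Int.mul_ediv_add_emod j (M : ℤ)]
    rw [zpow_add, zpow_mul, zpow_natCast, hc, one_zpow, one_mul]
  have hxm : ∀ j : ℤ, xl (w ^ a) c j = xl (w ^ a) c (j % (M : ℤ)) := by
    intro j
    unfold xl
    rw [zpow_neg, zpow_neg, ← hcz j]
  have hfin : (Set.range (xl (w ^ a) c)).Finite := by
    apply ((Set.finite_Ico (0 : ℤ) (M : ℤ)).image (xl (w ^ a) c)).subset
    rintro y ⟨j, rfl⟩
    have hM' : (M : ℤ) ≠ 0 := by exact_mod_cast Nat.one_le_iff_ne_zero.mp hM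
    have hM'' : (0 : ℤ) < (M : ℤ) := by exact_mod_cast hM
    exact ⟨j % (M : ℤ), ⟨Int.emod_nonneg _ hM', Int.emod_lt_of_pos _ hM''⟩, (hxm j).symm⟩
  have hcs : ∀ j : ℤ, (w ^ b)⁻¹ * xl (w ^ a) c j * w ^ b = xl (w ^ a) c (g * j) :=
    fun j => xl_conj_s (w ^ a) c (w ^ b) g hs hx j
  -- conjugation by s⁻¹
  have hsinv : ∀ j : ℤ, w ^ b * xl (w ^ a) c j * (w ^ b)⁻¹ ∈ Bs (w ^ a) c := by
    intro j
    have : Finite (Set.range (xl (w ^ a) c)) := hfin
    let F : Set.range (xl (w ^ a) c) → Set.range (xl (w ^ a) c) := fun y =>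
      ⟨(w ^ b)⁻¹ * y.1 * w ^ b, by
        obtain ⟨i, hi⟩ := y.2
        rw [← hi, hcs i]
        exact ⟨_, rfl⟩⟩
    have hF : Function.Injective F := by
      intro y z hyz
      have h1 : (w ^ b)⁻¹ * y.1 * w ^ b = (w ^ b)⁻¹ * z.1 * w ^ b := congrArg Subtype.val hyz
      have h2 := mul_left_cancel (mul_right_cancel h1)
      exact Subtype.ext h2
    obtain ⟨y, hy⟩ := (Finite.injective_iff_surjective.mp hF) ⟨xl (w ^ a) c j, ⟨j, rfl⟩⟩
    have h1 : (w ^ b)⁻¹ * y.1 * w ^ b = xl (w ^ a) c j := congrArg Subtype.val hy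
    have h2 : w ^ b * xl (w ^ a) c j * (w ^ b)⁻¹ = y.1 := by
      rw [← h1]; group
    rw [h2]
    exact Subgroup.subset_closure y.2
  -- membership in the normaliser
  have hnorm : ∀ u : G, (∀ j : ℤ, u⁻¹ * xl (w ^ a) c j * u ∈ Bs (w ^ a) c) →
      (∀ j : ℤ, u * xl (w ^ a) c j * u⁻¹ ∈ Bs (w ^ a) c) →
      ∀ h : G, h ∈ Bs (w ^ a) c ↔ u * h * u⁻¹ ∈ Bs (w ^ a) c := by
    intro u h1 h2 h
    have c1 := conj_closure (Set.range (xl (w ^ a) c)) u (by rintro y ⟨j, rfl⟩; exact h1 j)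
    have c2 := conj_closure (Set.range (xl (w ^ a) c)) u⁻¹ (by
      rintro y ⟨j, rfl⟩
      rw [inv_inv]
      exact h2 j)
    constructor
    · intro hh
      have := c2 h hh
      rwa [inv_inv] at this
    · intro hh
      have := c1 _ hh
      have e : u⁻¹ * (u * h * u⁻¹) * u = h := by group
      rwa [e] at this
  have nc : c ∈ Subgroup.normalizer (Bs (w ^ a) c : Set G) := by
    rw [Subgroup.mem_normalizer_iff]
    apply hnorm c
    · intro j
      have := xl_conj_c (w ^ a) c 1 j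
      rw [zpow_neg, zpow_one] at this
      rw [this]
      exact hmem _
    · intro j
      have := xl_conj_c (w ^ a) c (-1) j
      rw [neg_neg, zpow_neg, zpow_one] at this
      rw [this]
      exact hmem _
  have nx : w ^ a ∈ Subgroup.normalizer (Bs (w ^ a) c : Set G) := by
    have hx0 : w ^ a ∈ Bs (w ^ a) c := by
      have := hmem 0
      rwa [xl_zero] at this
    rw [Subgroup.mem_normalizer_iff]
    apply hnorm (w ^ a)
    · intro j
      exact Subgroup.mul_mem _ (Subgroup.mul_mem _ (Subgroup.inv_mem _ hx0) (hmem j)) hx0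
    · intro j
      exact Subgroup.mul_mem _ (Subgroup.mul_mem _ hx0 (hmem j)) (Subgroup.inv_mem _ hx0)
  have ns : w ^ b ∈ Subgroup.normalizer (Bs (w ^ a) c : Set G) := by
    rw [Subgroup.mem_normalizer_iff]
    apply hnorm (w ^ b)
    · intro j
      rw [hcs j]
      exact hmem _
    · exact hsinv
  have nw : w ∈ Subgroup.normalizer (Bs (w ^ a) c : Set G) := by
    have hbez := Nat.gcd_eq_gcd_ab a b
    rw [Nat.Coprime.gcd_eq_one hab] at hbez
    have e : w = (w ^ a) ^ (Nat.gcdA a b) * (w ^ b) ^ (Nat.gcdB a b) := by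
      rw [← zpow_natCast w a, ← zpow_natCast w b, ← zpow_mul, ← zpow_mul, ← zpow_add, ← hbez]
      simp
    have h := Subgroup.mul_mem _ (Subgroup.zpow_mem _ nx (Nat.gcdA a b))
      (Subgroup.zpow_mem _ ns (Nat.gcdB a b))
    rwa [← e] at h
  have htop : Subgroup.normalizer (Bs (w ^ a) c : Set G) = ⊤ := by
    rw [eq_top_iff, ← hcl, Subgroup.closure_le]
    intro y hy
    rcases hy with rfl | hy
    · exact nw
    · rw [Set.mem_singleton_iff] at hy
      rw [hy]
      exact nc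
  exact Subgroup.normalizer_eq_top_iff.mp htop

end Pool.Agent.Helper2.GP
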